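import Mathlib

/-!
# Isomorphism-testing complexity is not controlled by the number of isomorphism types

Signatures, first-order definable classes of finite structures, the numbers `f_K(n)` of isomorphism
types, deterministic multitape Turing machines and their worst-case running times `m_K(M, n)` are
defined as in the question, and the question is answered in the negative: let `K` be the class of all
structures `(V, P)` with a unary relation `P = V`, and `J` the class of all structures `(V, P)` in
which `P` has at most one element. Then `f_K(n) = 1` and `f_J(n) ≤ 2` for all `n`, there is an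
isomorphism testing algorithm for `K` which runs in constant time, but every isomorphism testing
algorithm for `J` has to look at the whole table of `P`.
-/

set_option autoImplicit false

open FirstOrder

namespace Pool.Agent.Results.MP_28ce77_lc.NoPolynomialTransfer

/-! ### Signatures and classes of finite structures -/

/-- A finite signature (finite type): finitely many function symbols (constants are function
symbols of arity `0`) and finitely many relation symbols, with their arities. -/
structure Signature where
  /-- the number of function symbols -/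
  numF : ℕ
  /-- the arities of the function symbols -/
  arF : Fin numF → ℕ
  /-- the number of relation symbols -/
  numR : ℕ
  /-- the arities of the relation symbols -/
  arR : Fin numR → ℕ

/-- The first-order language of a finite signature. -/
def Signature.lang (σ : Signature) : FirstOrder.Language.{0, 0} where
  Functions := fun k => {i : Fin σ.numF // σ.arF i = k}
  Relations := fun k => {i : Fin σ.numR // σ.arR i = k}

/-- The structures with universe `{0, ..., n - 1}`. -/
abbrev Str (σ : Signature) (n : ℕ) : Type := σ.lang.Structure (Fin n)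

/-- The structure `A` satisfies the sentence `φ`, that is, it is a member of the class defined
by `φ`. -/
def Mem (σ : Signature) (φ : σ.lang.Sentence) {n : ℕ} (A : Str σ n) : Prop :=
  @FirstOrder.Language.Sentence.Realize σ.lang (Fin n) A φ

/-- `A` and `B` are isomorphic. -/
def Iso (σ : Signature) {n : ℕ} (A B : Str σ n) : Prop :=
  Nonempty (@FirstOrder.Language.Equiv σ.lang (Fin n) (Fin n) A B)

/-- Isomorphism of the members with universe `{0, ..., n - 1}` of the class defined by `φ`. -/
def isoSetoid (σ : Signature) (φ : σ.lang.Sentence) (n : ℕ) :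
    Setoid {A : Str σ n // Mem σ φ A} where
  r A B := Iso σ A.1 B.1
  iseqv := by
    refine ⟨fun A => ?_, fun {A B} h => ?_, fun {A B C} h1 h2 => ?_⟩
    · exact ⟨@FirstOrder.Language.Equiv.refl σ.lang (Fin n) A.1⟩
    · obtain ⟨e⟩ := h
      exact ⟨@FirstOrder.Language.Equiv.symm σ.lang (Fin n) (Fin n) A.1 B.1 e⟩
    · obtain ⟨e⟩ := h1
      obtain ⟨f⟩ := h2
      exact ⟨@FirstOrder.Language.Equiv.comp σ.lang (Fin n) (Fin n) A.1 B.1 (Fin n) C.1 f e⟩

/-- `f_K(n)`: the number of isomorphism types of `n`-element members of the class `K` defined by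
`φ`. -/
noncomputable def isoTypes (σ : Signature) (φ : σ.lang.Sentence) (n : ℕ) : ℕ :=
  Nat.card (Quotient (isoSetoid σ φ n))

/-! ### Inputs -/

/-- The input alphabet. -/
inductive Letter
  | zero
  | one
  | sep
  deriving DecidableEq

/-- All `k`-tuples of elements of `{0, ..., n - 1}`, in lexicographic order. -/
def tuples (n : ℕ) : (k : ℕ) → List (Fin k → Fin n)
  | 0 => [Fin.elim0]
  | k + 1 => (List.finRange n).flatMap fun a => (tuples n k).map fun x => Fin.cons a x

open Classical in
/-- The code of a structure with universe `{0, ..., n - 1}`: the number `n` in unary, then the full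
tables of all relations (one bit for each tuple) and of all functions (the values in unary). -/
noncomputable def code (σ : Signature) {n : ℕ} (A : Str σ n) : List Letter :=
  List.replicate n Letter.one ++ [Letter.sep] ++
    ((List.finRange σ.numR).flatMap fun i =>
      ((tuples n (σ.arR i)).map fun x =>
        if @FirstOrder.Language.Structure.RelMap σ.lang (Fin n) A (σ.arR i) ⟨i, rfl⟩ x then Letter.one
        else Letter.zero) ++ [Letter.sep]) ++
    (List.finRange σ.numF).flatMap fun i =>
      (tuples n (σ.arF i)).flatMap fun x =>
        List.replicate (@FirstOrder.Language.Structure.funMap σ.lang (Fin n) A (σ.arF i) ⟨i, rfl⟩ x).1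
          Letter.one ++ [Letter.sep]

/-- The input for a pair of structures. -/
noncomputable def input (σ : Signature) {n : ℕ} (A B : Str σ n) : List Letter :=
  code σ A ++ [Letter.sep] ++ code σ B

/-! ### Turing machines -/

/-- Deterministic Turing machines with `numT + 1` tapes, infinite in both directions. The input is
written on tape `0`. In each step the machine reads the scanned symbols, and either halts or
replaces them, changes its state and moves each head by at most one cell. -/
structure TM where
  /-- the number of work tapes -/
  numT : ℕ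
  /-- the states -/
  Q : Type
  finQ : Finite Q
  /-- the tape symbols -/
  Γ : Type
  finΓ : Finite Γ
  /-- the input letters as tape symbols -/
  inp : Letter → Γ
  inp_injective : Function.Injective inp
  /-- the blank symbol -/
  blank : Γ
  inp_ne_blank : ∀ a, inp a ≠ blank
  /-- the initial state -/
  start : Q
  /-- the transition function; `none` means that the machine halts -/
  δ : Q → (Fin (numT + 1) → Γ) → Option (Q × (Fin (numT + 1) → Γ × SignType))
  /-- the accepting states -/
  accept : Q → Prop

namespace TM

variable (M : TM)

/-- Configurations: the state, the positions of the heads and the contents of the tapes. -/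
structure Config where
  /-- the state -/
  state : M.Q
  /-- the positions of the heads -/
  head : Fin (M.numT + 1) → ℤ
  /-- the contents of the tapes -/
  tape : Fin (M.numT + 1) → ℤ → M.Γ

/-- The initial configuration: the word `w` is written in the cells `0, 1, ...` of tape `0`. -/
def init (w : List Letter) : M.Config where
  state := M.start
  head := fun _ => 0
  tape := fun j z => if j = 0 ∧ 0 ≤ z then ((w[z.toNat]?).map M.inp).getD M.blank else M.blank

/-- The transition which is possible in a configuration. -/
def trans (c : M.Config) : Option (M.Q × (Fin (M.numT + 1) → M.Γ × SignType)) :=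
  M.δ c.state fun j => c.tape j (c.head j)

/-- The machine halts in the configuration `c`. -/
def Halted (c : M.Config) : Prop := M.trans c = none

/-- The next configuration (the same one if the machine has halted). -/
def next (c : M.Config) : M.Config :=
  match M.trans c with
  | none => c
  | some (q, a) =>
    { state := q
      head := fun j => c.head j + ((a j).2 : ℤ)
      tape := fun j => Function.update (c.tape j) (c.head j) (a j).1 }

/-- The configuration after `t` steps for the input `w`. -/
def conf (w : List Letter) (t : ℕ) : M.Config := M.next^[t] (M.init w)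

/-- The machine halts for the input `w`. -/
def Halts (w : List Letter) : Prop := ∃ t, M.Halted (M.conf w t)

/-- The number of steps for the input `w`. -/
noncomputable def time (w : List Letter) : ℕ := sInf {t | M.Halted (M.conf w t)}

/-- The machine accepts the input `w`: it halts in an accepting state. -/
def Accepts (w : List Letter) : Prop :=
  M.Halts w ∧ M.accept (M.conf w (M.time w)).state

end TM

/-- `M` is an isomorphism testing algorithm for the class defined by `φ`: for any two `n`-element
members `A`, `B` of the class the machine halts, and it accepts if and only if `A` and `B` are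
isomorphic. -/
def IsTester (σ : Signature) (φ : σ.lang.Sentence) (M : TM) : Prop :=
  ∀ (n : ℕ) (A B : Str σ n), Mem σ φ A → Mem σ φ B →
    M.Halts (input σ A B) ∧ (M.Accepts (input σ A B) ↔ Iso σ A B)

/-- `m_K(M, n)`: the largest number of steps which `M` uses on a pair of `n`-element members of the
class defined by `φ`. -/
noncomputable def steps (σ : Signature) (φ : σ.lang.Sentence) (M : TM) (n : ℕ) : ℕ :=
  sSup {t | ∃ A B : Str σ n, Mem σ φ A ∧ Mem σ φ B ∧ t = M.time (input σ A B)}

/-- The assertion of the question. -/
def Question : Prop :=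
  ∀ (σJ σK : Signature) (φJ : σJ.lang.Sentence) (φK : σK.lang.Sentence),
    (∃ q : Polynomial ℝ, ∀ n, (isoTypes σJ φJ n : ℝ) ≤ q.eval (isoTypes σK φK n : ℝ)) →
    ∃ p : Polynomial ℝ, ∀ α : TM, IsTester σK φK α →
      ∃ β : TM, IsTester σJ φJ β ∧
        ∀ᶠ n in Filter.atTop, (steps σJ φJ β n : ℝ) ≤ p.eval (steps σK φK α n : ℝ)



/-! ### Two runs on words which agree on a long initial part -/

namespace TM

variable {M : TM}

lemma conf_succ (w : List Letter) (t : ℕ) : M.conf w (t + 1) = M.next (M.conf w t) := by
  unfold conf
  exact Function.iterate_succ_apply' _ _ _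

lemma sim {w w' : List Letter} {N : ℕ} (h : ∀ i < N, w[i]? = w'[i]?) :
    ∀ t ≤ N, (M.conf w t).state = (M.conf w' t).state ∧ (M.conf w t).head = (M.conf w' t).head ∧
      (∀ j (z : ℤ), z < N → (M.conf w t).tape j z = (M.conf w' t).tape j z) ∧
      ∀ j, (M.conf w t).head j ≤ t := by
  intro t
  induction t with
  | zero =>
    intro _
    refine ⟨rfl, rfl, fun j z hz => ?_, fun j => le_of_eq rfl⟩
    show (if j = 0 ∧ 0 ≤ z then ((w[z.toNat]?).map M.inp).getD M.blank else M.blank) =
      (if j = 0 ∧ 0 ≤ z then ((w'[z.toNat]?).map M.inp).getD M.blank else M.blank)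
    by_cases hj : j = 0 ∧ 0 ≤ z
    · rw [if_pos hj, if_pos hj, h z.toNat (by omega)]
    · rw [if_neg hj, if_neg hj]
  | succ t ih =>
    intro ht
    obtain ⟨h1, h2, h3, h4⟩ := ih (by omega)
    have htr : M.trans (M.conf w t) = M.trans (M.conf w' t) := by
      unfold trans
      rw [h1, h2]
      congr 1
      funext j
      apply h3
      rw [← h2]
      have := h4 j
      omega
    rw [conf_succ, conf_succ]
    unfold next
    rw [← htr]
    cases hc : M.trans (M.conf w t) with
    | none =>
      refine ⟨h1, h2, h3, fun j => ?_⟩
      have := h4 j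
      push_cast
      show (M.conf w t).head j ≤ (t : ℤ) + 1
      omega
    | some qa =>
      obtain ⟨q, a⟩ := qa
      refine ⟨rfl, ?_, fun j z hz => ?_, fun j => ?_⟩
      · funext j
        show (M.conf w t).head j + ((a j).2 : ℤ) = (M.conf w' t).head j + ((a j).2 : ℤ)
        rw [h2]
      · show Function.update ((M.conf w t).tape j) ((M.conf w t).head j) (a j).1 z =
          Function.update ((M.conf w' t).tape j) ((M.conf w' t).head j) (a j).1 z
        rw [h2]
        by_cases hz' : z = (M.conf w' t).head j
        · subst hz'
          rw [Function.update_self, Function.update_self]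
        · rw [Function.update_of_ne hz', Function.update_of_ne hz']
          exact h3 j z hz
      · show (M.conf w t).head j + ((a j).2 : ℤ) ≤ ((t + 1 : ℕ) : ℤ)
        have h5 := h4 j
        have h6 : ((a j).2 : ℤ) ≤ 1 := by
          rcases (a j).2 with _ | _ | _ <;> simp
        push_cast
        omega

lemma halted_iff {w w' : List Letter} {N : ℕ} (h : ∀ i < N, w[i]? = w'[i]?) {t : ℕ} (ht : t < N) :
    M.Halted (M.conf w t) ↔ M.Halted (M.conf w' t) := by
  obtain ⟨h1, h2, h3, h4⟩ := sim (M := M) h t ht.le
  have htr : M.trans (M.conf w t) = M.trans (M.conf w' t) := by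
    unfold trans
    rw [h1, h2]
    congr 1
    funext j
    apply h3
    rw [← h2]
    have := h4 j
    omega
  unfold Halted
  rw [htr]

/-- If two words agree on their first `N` letters and the machine halts on the first of them in
fewer than `N` steps, then it accepts both or none of them. -/
lemma accepts_iff {w w' : List Letter} {N : ℕ} (h : ∀ i < N, w[i]? = w'[i]?) (hw : M.Halts w)
    (ht : M.time w < N) : M.Accepts w ↔ M.Accepts w' := by
  have hH : M.Halted (M.conf w (M.time w)) := Nat.sInf_mem hw
  have hH' : M.Halted (M.conf w' (M.time w)) := (halted_iff h ht).1 hH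
  have htime : M.time w' = M.time w := by
    apply le_antisymm
    · exact Nat.sInf_le hH'
    · apply Nat.sInf_le
      have h1 : M.time w' ≤ M.time w := Nat.sInf_le hH'
      have h2 : M.Halted (M.conf w' (M.time w')) :=
        Nat.sInf_mem (s := {t | M.Halted (M.conf w' t)}) ⟨_, hH'⟩
      exact (halted_iff h (lt_of_le_of_lt h1 ht)).2 h2
  have hst := (sim (M := M) h (M.time w) ht.le).1
  unfold Accepts
  rw [htime, hst]
  exact ⟨fun hx => ⟨⟨_, hH'⟩, hx.2⟩, fun hx => ⟨hw, hx.2⟩⟩

end TM

/-! ### Structures with one unary relation -/

/-- The signature with one unary relation symbol `P`. -/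
def sig : Signature where
  numF := 0
  arF := Fin.elim0
  numR := 1
  arR := fun _ => 1

/-- The relation symbol `P`. -/
def P : sig.lang.Relations 1 := ⟨(0 : Fin 1), rfl⟩

/-- The elements of the relation `P`. -/
def pred {n : ℕ} (A : Str sig n) (x : Fin n) : Prop :=
  @FirstOrder.Language.Structure.RelMap sig.lang (Fin n) A 1 P ![x]

/-- The structure with a given relation. -/
@[reducible] def ofPred {n : ℕ} (R : Fin n → Prop) : Str sig n where
  funMap := fun {_} f _ => (f.1 : Fin 0).elim0
  RelMap := fun {_} r x => R (x (Fin.cast r.2 (0 : Fin 1)))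

lemma pred_ofPred {n : ℕ} (R : Fin n → Prop) (x : Fin n) : pred (ofPred R) x ↔ R x := by
  show R (![x] (Fin.cast P.2 (0 : Fin 1))) ↔ R x
  rfl

lemma ofPred_pred {n : ℕ} (A : Str sig n) : ofPred (pred A) = A := by
  have h1 : ∀ (k : ℕ) (f : sig.lang.Functions k), False := fun k f => (f.1 : Fin 0).elim0
  refine FirstOrder.Language.Structure.ext ?_ ?_
  · funext k f
    exact (h1 k f).elim
  · funext k r x
    obtain ⟨i, hi⟩ := r
    have hk : k = 1 := hi.symm
    subst hk
    have hi0 : i = (0 : Fin 1) := Subsingleton.elim (α := Fin 1) _ _
    subst hi0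
    show @FirstOrder.Language.Structure.RelMap sig.lang (Fin n) A 1 P ![x 0] =
      @FirstOrder.Language.Structure.RelMap sig.lang (Fin n) A 1 P x
    congr 1
    funext j
    rw [Subsingleton.elim j 0]
    rfl

/-- The sentence `∀ x, P x`. -/
def phiK : sig.lang.Sentence :=
  (P.boundedFormula₁ (&0)).all

/-- The sentence `∀ x y, P x ∧ P y → x = y`. -/
def phiJ : sig.lang.Sentence :=
  (((P.boundedFormula₁ (&0) ⊓ P.boundedFormula₁ (&1)).imp
    (FirstOrder.Language.Term.bdEqual (&0) (&1))).all).all

lemma mem_phiK {n : ℕ} (A : Str sig n) : Mem sig phiK A ↔ ∀ x, pred A x := by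
  let _ := A
  unfold Mem phiK FirstOrder.Language.Sentence.Realize FirstOrder.Language.Formula.Realize
  rw [FirstOrder.Language.BoundedFormula.realize_all]
  refine forall_congr' fun x => ?_
  rw [FirstOrder.Language.BoundedFormula.realize_rel₁]
  rfl

lemma mem_phiJ {n : ℕ} (A : Str sig n) :
    Mem sig phiJ A ↔ ∀ x y, pred A x → pred A y → x = y := by
  let _ := A
  unfold Mem phiJ FirstOrder.Language.Sentence.Realize FirstOrder.Language.Formula.Realize
  rw [FirstOrder.Language.BoundedFormula.realize_all]
  refine forall_congr' fun x => ?_
  rw [FirstOrder.Language.BoundedFormula.realize_all]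
  refine forall_congr' fun y => ?_
  rw [FirstOrder.Language.BoundedFormula.realize_imp, FirstOrder.Language.BoundedFormula.realize_inf,
    FirstOrder.Language.BoundedFormula.realize_rel₁, FirstOrder.Language.BoundedFormula.realize_rel₁,
    FirstOrder.Language.BoundedFormula.realize_bdEqual]
  rw [and_imp]
  rfl



lemma iso_of_pred {n : ℕ} {A B : Str sig n} (e : Fin n ≃ Fin n)
    (h : ∀ x, pred A x ↔ pred B (e x)) : Iso sig A B := by
  refine ⟨?_⟩
  refine @FirstOrder.Language.Equiv.mk sig.lang (Fin n) (Fin n) A B e ?_ ?_
  · intro k f
    exact (f.1 : Fin 0).elim0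
  · intro k r x
    obtain ⟨i, hi⟩ := r
    have hk : k = 1 := hi.symm
    subst hk
    have hi0 : i = (0 : Fin 1) := Subsingleton.elim (α := Fin 1) _ _
    subst hi0
    have h1 := h (x 0)
    have e1 : x = ![x 0] := by
      funext j
      rw [Subsingleton.elim j 0]
      rfl
    have e2 : (e ∘ x) = ![e (x 0)] := by
      funext j
      rw [Subsingleton.elim j 0]
      rfl
    show @FirstOrder.Language.Structure.RelMap sig.lang (Fin n) B 1 P (e ∘ x) ↔
      @FirstOrder.Language.Structure.RelMap sig.lang (Fin n) A 1 P x
    rw [e2]
    conv_rhs => rw [e1]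
    exact h1.symm

lemma pred_of_iso {n : ℕ} {A B : Str sig n} (h : Iso sig A B) :
    (∃ x, pred A x) → ∃ x, pred B x := by
  obtain ⟨e⟩ := h
  rintro ⟨x, hx⟩
  refine ⟨@FirstOrder.Language.Equiv.toEquiv sig.lang (Fin n) (Fin n) A B e x, ?_⟩
  have h1 := (@FirstOrder.Language.Equiv.map_rel sig.lang (Fin n) (Fin n) A B e 1 P ![x]).2 hx
  have e2 : ((@FirstOrder.Language.Equiv.toEquiv sig.lang (Fin n) (Fin n) A B e) ∘ ![x]) =
      ![@FirstOrder.Language.Equiv.toEquiv sig.lang (Fin n) (Fin n) A B e x] := by
    funext j
    rw [Subsingleton.elim j 0]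
    rfl
  unfold pred
  rw [← e2]
  exact h1

lemma iso_refl {n : ℕ} (A : Str sig n) : Iso sig A A :=
  iso_of_pred (Equiv.refl _) fun _ => Iff.rfl

/-- In the class `K` there is one isomorphism type for each `n`. -/
lemma isoTypes_K (n : ℕ) : isoTypes sig phiK n = 1 := by
  unfold isoTypes
  rw [Nat.card_eq_one_iff_unique]
  constructor
  · constructor
    intro a b
    induction a using Quotient.inductionOn with
    | h a =>
      induction b using Quotient.inductionOn with
      | h b =>
        apply Quotient.sound
        have ha := (mem_phiK a.1).1 a.2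
        have hb := (mem_phiK b.1).1 b.2
        exact iso_of_pred (Equiv.refl _) fun x => iff_of_true (ha x) (hb x)
  · exact ⟨Quotient.mk _ ⟨ofPred fun _ => True, (mem_phiK _).2 fun x => (pred_ofPred _ x).2 trivial⟩⟩

/-- In the class `J` there are at most two isomorphism types for each `n`. -/
lemma isoTypes_J (n : ℕ) : isoTypes sig phiJ n ≤ 2 := by
  classical
  unfold isoTypes
  let f : Quotient (isoSetoid sig phiJ n) → Prop :=
    Quotient.lift (fun A => ∃ x, pred A.1 x) (by
      intro A B h
      apply propext
      exact ⟨pred_of_iso h, pred_of_iso ((isoSetoid sig phiJ n).symm h)⟩)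
  have hf : Function.Injective f := by
    intro a b hab
    induction a using Quotient.inductionOn with
    | h a =>
      induction b using Quotient.inductionOn with
      | h b =>
        apply Quotient.sound
        have hab' : (∃ x, pred a.1 x) ↔ ∃ x, pred b.1 x := iff_of_eq hab
        have ha := (mem_phiJ a.1).1 a.2
        have hb := (mem_phiJ b.1).1 b.2
        by_cases h : ∃ x, pred a.1 x
        · obtain ⟨x, hx⟩ := h
          obtain ⟨y, hy⟩ := hab'.1 ⟨x, hx⟩
          refine iso_of_pred (Equiv.swap x y) fun z => ⟨fun hz => ?_, fun hz => ?_⟩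
          · rw [ha z x hz hx, Equiv.swap_apply_left]
            exact hy
          · have h1 : Equiv.swap x y z = y := hb _ _ hz hy
            have h2 : z = x := (Equiv.swap x y).injective (by
              rw [h1, Equiv.swap_apply_left])
            rw [h2]
            exact hx
        · have h' : ¬ ∃ x, pred b.1 x := fun h1 => h (hab'.2 h1)
          exact iso_of_pred (Equiv.refl _) fun z => iff_of_false (fun h1 => h ⟨z, h1⟩)
            (fun h1 => h' ⟨z, h1⟩)
  have h2 : Nat.card Prop = 2 := by
    rw [Nat.card_congr Equiv.propEquivBool, Nat.card_eq_fintype_card, Fintype.card_bool]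
  rw [← h2]
  exact Nat.card_le_card_of_injective f hf

/-! ### The trivial algorithm for the class `K` -/

/-- The machine which halts immediately and accepts. -/
def trivialTM : TM where
  numT := 0
  Q := Unit
  finQ := inferInstance
  Γ := Option Letter
  finΓ := by
    have : Fintype Letter := ⟨{Letter.zero, Letter.one, Letter.sep}, by intro x; cases x <;> simp⟩
    infer_instance
  inp := some
  inp_injective := Option.some_injective _
  blank := none
  inp_ne_blank := fun a => by simp
  start := ()
  δ := fun _ _ => none
  accept := fun _ => True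

lemma trivial_halted (w : List Letter) (t : ℕ) : trivialTM.Halted (trivialTM.conf w t) := rfl

lemma trivial_time (w : List Letter) : trivialTM.time w = 0 := by
  have h : (0 : ℕ) ∈ {t | trivialTM.Halted (trivialTM.conf w t)} := trivial_halted w 0
  exact Nat.le_zero.1 (Nat.sInf_le h)

lemma trivial_tester : IsTester sig phiK trivialTM := by
  intro n A B hA hB
  refine ⟨⟨0, trivial_halted _ 0⟩, ?_⟩
  have ha := (mem_phiK A).1 hA
  have hb := (mem_phiK B).1 hB
  exact iff_of_true ⟨⟨0, trivial_halted _ 0⟩, trivial⟩
    (iso_of_pred (Equiv.refl _) fun x => iff_of_true (ha x) (hb x))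

lemma trivial_steps (n : ℕ) : steps sig phiK trivialTM n = 0 := by
  unfold steps
  have h : {t | ∃ A B : Str sig n, Mem sig phiK A ∧ Mem sig phiK B ∧
      t = trivialTM.time (input sig A B)} ⊆ {0} := by
    rintro t ⟨A, B, -, -, rfl⟩
    exact trivial_time _
  rcases Set.subset_singleton_iff_eq.1 h with h1 | h1
  · rw [h1]; simp
  · rw [h1]; simp

/-! ### The lower bound for the class `J` -/

lemma tuples_one (n : ℕ) : tuples n 1 = (List.finRange n).map fun a => ![a] := by
  show ((List.finRange n).flatMap fun a => (tuples n 0).map fun x => (Fin.cons a x : Fin 1 → Fin n)) = _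
  rw [List.map_eq_flatMap]
  rfl

open Classical in
lemma code_sig {n : ℕ} (A : Str sig n) :
    code sig A = (List.replicate n Letter.one ++ [Letter.sep]) ++
      (((List.finRange n).map fun a => if pred A a then Letter.one else Letter.zero) ++
        [Letter.sep]) := by
  have h1 : code sig A = List.replicate n Letter.one ++ [Letter.sep] ++
      (((tuples n 1).map fun x =>
        if @FirstOrder.Language.Structure.RelMap sig.lang (Fin n) A 1 P x then Letter.one
        else Letter.zero) ++ [Letter.sep] ++ []) ++ [] := rfl
  rw [h1, tuples_one, List.map_map, List.append_nil, List.append_nil]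
  rfl

open Classical in
lemma getElem_code {n : ℕ} (A : Str sig n) {i : ℕ} (hi : i < 2 * n + 1) :
    (code sig A)[i]? = if h : i < n + 1 then (List.replicate n Letter.one ++ [Letter.sep])[i]?
      else some (if pred A ⟨i - (n + 1), by omega⟩ then Letter.one else Letter.zero) := by
  rw [code_sig]
  split_ifs with h h'
  · rw [List.getElem?_append_left]
    simpa using h
  · rw [List.getElem?_append_right (by simp; omega), List.getElem?_append_left (by simp; omega),
      List.getElem?_map, List.getElem?_eq_getElem (by simp; omega)]
    simp only [Option.map_some, List.getElem_finRange, List.length_append, List.length_replicate,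
      List.length_singleton]
    rw [if_pos]
    exact h'
  · rw [List.getElem?_append_right (by simp; omega), List.getElem?_append_left (by simp; omega),
      List.getElem?_map, List.getElem?_eq_getElem (by simp; omega)]
    simp only [Option.map_some, List.getElem_finRange, List.length_append, List.length_replicate,
      List.length_singleton]
    rw [if_neg]
    exact h'

lemma getElem_input {n : ℕ} (A B : Str sig (n + 1)) {i : ℕ} (hi : i < 2 * n + 2) :
    (input sig A B)[i]? = (code sig A)[i]? := by
  unfold input
  rw [List.append_assoc, List.getElem?_append_left]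
  rw [code_sig]
  simp
  omega

lemma bddAbove_steps (M : TM) (n : ℕ) (φ : sig.lang.Sentence) :
    BddAbove {t | ∃ A B : Str sig n, Mem sig φ A ∧ Mem sig φ B ∧ t = M.time (input sig A B)} := by
  apply Set.Finite.bddAbove
  refine (Set.finite_range fun R : (Fin n → Prop) × (Fin n → Prop) =>
    M.time (input sig (ofPred R.1) (ofPred R.2))).subset ?_
  rintro t ⟨A, B, -, -, rfl⟩
  refine ⟨(pred A, pred B), ?_⟩
  show M.time (input sig (ofPred (pred A)) (ofPred (pred B))) = _
  rw [ofPred_pred, ofPred_pred]

/-- Every isomorphism testing algorithm for the class `J` needs at least `2 n` steps. -/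
lemma lower_bound (M : TM) (hM : IsTester sig phiJ M) (n : ℕ) :
    2 * n ≤ steps sig phiJ M n := by
  classical
  rcases Nat.eq_zero_or_pos n with rfl | hn
  · simp
  obtain ⟨m, rfl⟩ : ∃ m, n = m + 1 := ⟨n - 1, by omega⟩
  set A0 : Str sig (m + 1) := ofPred fun _ => False with hA0
  set A1 : Str sig (m + 1) := ofPred fun x => x = Fin.last m with hA1
  have m0 : Mem sig phiJ A0 := (mem_phiJ _).2 fun x y hx => ((pred_ofPred _ x).1 hx).elim
  have m1 : Mem sig phiJ A1 := (mem_phiJ _).2 fun x y hx hy => by
    rw [(pred_ofPred _ x).1 hx, (pred_ofPred _ y).1 hy]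
  obtain ⟨h00, h00'⟩ := hM _ A0 A0 m0 m0
  obtain ⟨h10, h10'⟩ := hM _ A1 A0 m1 m0
  have hacc : M.Accepts (input sig A0 A0) := h00'.2 (iso_refl A0)
  have hrej : ¬ M.Accepts (input sig A1 A0) := fun h => by
    obtain ⟨x, hx⟩ := pred_of_iso (h10'.1 h) ⟨Fin.last m, (pred_ofPred _ _).2 rfl⟩
    exact (pred_ofPred _ x).1 hx
  have hagree : ∀ i < 2 * (m + 1), (input sig A0 A0)[i]? = (input sig A1 A0)[i]? := by
    intro i hi
    rw [getElem_input A0 A0 (by omega), getElem_input A1 A0 (by omega),
      getElem_code A0 (by omega), getElem_code A1 (by omega)]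
    split_ifs with h1 h2 h3 h3
    · rfl
    · exact ((pred_ofPred _ _).1 h2).elim
    · exact ((pred_ofPred _ _).1 h2).elim
    · exfalso
      have h5 := congrArg Fin.val ((pred_ofPred _ _).1 h3)
      simp at h5
      omega
    · rfl
  by_contra hlt
  push Not at hlt
  have htime : M.time (input sig A0 A0) < 2 * (m + 1) := by
    refine lt_of_le_of_lt ?_ hlt
    exact le_csSup (bddAbove_steps M (m + 1) phiJ) ⟨A0, A0, m0, m0, rfl⟩
  exact hrej ((TM.accepts_iff hagree h00 htime).1 hacc)

/-- The answer to the question is negative. Explicitly: there are a finite signature `σ` and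
sentences `φJ` and `φK` such that the class `K` has one and the class `J` has at most two
isomorphism types of `n`-element members, for all `n`, an isomorphism testing algorithm for `K` runs
in constant time, and the worst-case running time of every isomorphism testing algorithm for `J` is
at least `2 n`. -/
theorem result :
    ¬ Question ∧
    ∃ (σ : Signature) (φJ φK : σ.lang.Sentence),
      (∀ n, isoTypes σ φK n = 1 ∧ isoTypes σ φJ n ≤ 2) ∧
      (∃ α : TM, IsTester σ φK α ∧ ∀ n, steps σ φK α n = 0) ∧
      ∀ β : TM, IsTester σ φJ β → ∀ n, 2 * n ≤ steps σ φJ β n := by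
  refine ⟨fun hQ => ?_, sig, phiJ, phiK, fun n => ⟨isoTypes_K n, isoTypes_J n⟩,
    ⟨trivialTM, trivial_tester, trivial_steps⟩, lower_bound⟩
  obtain ⟨p, hp⟩ := hQ sig sig phiJ phiK ⟨Polynomial.C 2, fun n => by
    rw [Polynomial.eval_C]
    exact_mod_cast isoTypes_J n⟩
  obtain ⟨β, hβ, hev⟩ := hp trivialTM trivial_tester
  obtain ⟨n, hn1, hn2⟩ := (hev.and (Filter.eventually_gt_atTop ⌈p.eval 0⌉₊)).exists
  rw [trivial_steps] at hn1
  have h1 := lower_bound β hβ n
  have h2 : p.eval 0 < n := lt_of_le_of_lt (Nat.le_ceil _) (by exact_mod_cast hn2)
  have h3 : (2 * n : ℝ) ≤ (steps sig phiJ β n : ℝ) := by exact_mod_cast h1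
  have h4 : (0 : ℝ) ≤ n := Nat.cast_nonneg n
  simp only [Nat.cast_zero] at hn1
  linarith

end Pool.Agent.Results.MP_28ce77_lc.NoPolynomialTransfer
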